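import Mathlib

/-!
A large reverse oddtown family in `(F × F) × K × K`, where `K / F` has prime degree `k > |F|`.
To the `q + 1` points `t` of the projective line of `F × F` we attach distinct automorphisms
`σ t` of `K / F`.  For `c` of norm one and a functional `φ` on `K` the member is
`{(l, u, c * σ t u) : lam t l = φ u}`.
-/

open Module

namespace Pool.Agent.MP_489091_co

section Line

variable {F : Type} [Field F]

/-- a functional vanishing at the point `t` of the projective line -/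
def lam (t : Option F) (l : F × F) : F :=
  match t with
  | none => l.1
  | some a => l.2 - a * l.1

/-- a vector spanning the point `t` -/
def yv (t : Option F) : F × F :=
  match t with
  | none => (0, 1)
  | some a => (1, a)

/-- a vector on which `lam t` is one -/
def zv (t : Option F) : F × F :=
  match t with
  | none => (1, 0)
  | some _ => (0, 1)

theorem lam_comb (t : Option F) (s r : F) : lam t (s • yv t + r • zv t) = r := by
  cases t <;> simp [lam, yv, zv, mul_comm]

theorem exists_comb (t : Option F) (l : F × F) : ∃ s : F, s • yv t + lam t l • zv t = l := by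
  cases t with
  | none => exact ⟨l.2, by ext <;> simp [lam, yv, zv]⟩
  | some a => exact ⟨l.1, by ext <;> simp [lam, yv, zv, mul_comm]⟩

theorem yv_ne (t : Option F) : yv t ≠ 0 := by
  cases t <;> simp [yv]

theorem lam_smul (t : Option F) (s : F) (l : F × F) : lam t (s • l) = s * lam t l := by
  cases t <;> simp [lam]
  ring

theorem lam_surj {t t' : Option F} (h : t ≠ t') (r r' : F) :
    ∃ l, lam t l = r ∧ lam t' l = r' := by
  rcases t with _ | a <;> rcases t' with _ | b
  · exact absurd rfl h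
  · exact ⟨(r, r' + b * r), rfl, by simp [lam]⟩
  · exact ⟨(r', r + a * r'), by simp [lam], rfl⟩
  · have hab : b - a ≠ 0 := sub_ne_zero.2 fun e => h (by rw [e])
    refine ⟨((r - r') / (b - a), r + a * ((r - r') / (b - a))), by simp [lam], ?_⟩
    simp only [lam]
    field_simp
    ring

theorem lam_inj {t t' : Option F} (h : t ≠ t') {l m : F × F} (h1 : lam t l = lam t m)
    (h2 : lam t' l = lam t' m) : l = m := by
  rcases t with _ | a <;> rcases t' with _ | b
  · exact absurd rfl h
  · simp only [lam] at h1 h2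
    exact Prod.ext h1 (by linear_combination h2 + b * h1)
  · simp only [lam] at h1 h2
    exact Prod.ext h2 (by linear_combination h1 + a * h2)
  · have hab : b - a ≠ 0 := sub_ne_zero.2 fun e => h (by rw [e])
    simp only [lam] at h1 h2
    have h3 : l.1 = m.1 := mul_left_cancel₀ hab (by linear_combination h1 - h2)
    exact Prod.ext h3 (by linear_combination h1 + a * h3)

end Line

section Member

variable {F K : Type} [Field F] [Field K] [Algebra F K]

/-- the parametrisation of a member -/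
def par (t : Option F) (σ : K ≃ₐ[F] K) (c : K) (φ : Module.Dual F K) :
    F × K →ₗ[F] (F × F) × K × K where
  toFun x := (x.1 • yv t + φ x.2 • zv t, x.2, c * σ x.2)
  map_add' x y := by
    ext <;> simp [add_smul, mul_add] <;> ring
  map_smul' s x := by
    ext <;> simp [mul_assoc]

theorem par_inj (t : Option F) (σ : K ≃ₐ[F] K) (c : K) (φ : Module.Dual F K) :
    Function.Injective (par t σ c φ) := by
  rw [injective_iff_map_eq_zero]
  intro x hx
  have h2 : x.2 = 0 := congrArg (fun y => y.2.1) hx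
  have h1 : x.1 • yv t + φ x.2 • zv t = 0 := congrArg Prod.fst hx
  rw [h2, map_zero, zero_smul, add_zero] at h1
  exact Prod.ext ((smul_eq_zero.1 h1).resolve_right (yv_ne t)) h2

/-- a member of the family -/
def mem (t : Option F) (σ : K ≃ₐ[F] K) (c : K) (φ : Module.Dual F K) :
    Submodule F ((F × F) × K × K) := LinearMap.range (par t σ c φ)

theorem mem_iff {t : Option F} {σ : K ≃ₐ[F] K} {c : K} {φ : Module.Dual F K}
    {x : (F × F) × K × K} : x ∈ mem t σ c φ ↔ lam t x.1 = φ x.2.1 ∧ x.2.2 = c * σ x.2.1 := by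
  constructor
  · rintro ⟨y, rfl⟩
    exact ⟨lam_comb t _ _, rfl⟩
  · rintro ⟨h1, h2⟩
    obtain ⟨s, hs⟩ := exists_comb t x.1
    exact ⟨(s, x.2.1), Prod.ext (by rw [← hs, h1]; rfl) (Prod.ext rfl h2.symm)⟩

theorem finrank_one {V : Type} [AddCommGroup V] [Module F V] {A : Submodule F V} {w : V}
    (hw : w ≠ 0) (h1 : w ∈ A) (h2 : ∀ x ∈ A, ∃ s : F, s • w = x) : finrank F A = 1 := by
  have : A = F ∙ w := le_antisymm (fun x hx => Submodule.mem_span_singleton.2 (h2 x hx))
    ((Submodule.span_singleton_le_iff_mem _ _).2 h1)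
  rw [this, finrank_span_singleton hw]

variable [FiniteDimensional F K]

theorem finrank_mem (t : Option F) (σ : K ≃ₐ[F] K) (c : K) (φ : Module.Dual F K) :
    finrank F (mem t σ c φ) = finrank F K + 1 := by
  rw [mem, LinearMap.finrank_range_of_inj (par_inj t σ c φ), finrank_prod, finrank_self, add_comm]

theorem finrank_same (t : Option F) (σ : K ≃ₐ[F] K) (c : K) {φ ψ : Module.Dual F K}
    (h : φ ≠ ψ) : finrank F (mem t σ c φ ⊓ mem t σ c ψ : Submodule F _) = finrank F K := by
  let f : Module.Dual F (F × K) := (φ - ψ).comp (LinearMap.snd F F K)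
  have hf : f ≠ 0 := fun e => h (LinearMap.ext fun u => by
    have := LinearMap.congr_fun e (0, u)
    simpa [f, sub_eq_zero] using this)
  have h1 : mem t σ c φ ⊓ mem t σ c ψ = (LinearMap.ker f).map (par t σ c φ) := by
    ext x
    constructor
    · rintro ⟨⟨y, rfl⟩, h2⟩
      refine ⟨y, ?_, rfl⟩
      have h3 : lam t (y.1 • yv t + φ y.2 • zv t) = ψ y.2 := (mem_iff.1 h2).1
      rw [lam_comb] at h3
      simp [f, h3]
    · rintro ⟨y, hy, rfl⟩
      refine ⟨⟨y, rfl⟩, mem_iff.2 ⟨?_, rfl⟩⟩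
      have h3 : φ y.2 = ψ y.2 := by simpa [f, sub_eq_zero] using hy
      exact (lam_comb t _ _).trans h3
  have h2 := Module.Dual.finrank_ker_add_one_of_ne_zero hf
  rw [finrank_prod, finrank_self] at h2
  rw [h1, ← (Submodule.equivMapOfInjective _ (par_inj t σ c φ) _).finrank_eq]
  omega

omit [FiniteDimensional F K] in
theorem finrank_point (t : Option F) (σ : K ≃ₐ[F] K) {c d : K} (h : c ≠ d)
    (φ ψ : Module.Dual F K) : finrank F (mem t σ c φ ⊓ mem t σ d ψ : Submodule F _) = 1 := by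
  have h0 : lam t (yv t) = 0 := by simpa using lam_comb t 1 0
  refine finrank_one (w := (yv t, 0, 0)) (fun e => yv_ne t (congrArg Prod.fst e))
    ⟨mem_iff.2 (by simp [h0]), mem_iff.2 (by simp [h0])⟩ ?_
  rintro x ⟨h1, h2⟩
  obtain ⟨h1, h3⟩ := mem_iff.1 h1
  obtain ⟨-, h4⟩ := mem_iff.1 h2
  have h5 : σ x.2.1 = 0 :=
    (mul_eq_zero.1 (show (c - d) * σ x.2.1 = 0 by linear_combination h4 - h3)).resolve_left
      (sub_ne_zero.2 h)
  have h6 : x.2.1 = 0 := (map_eq_zero_iff σ σ.injective).1 h5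
  obtain ⟨s, hs⟩ := exists_comb t x.1
  rw [h1, h6, map_zero, zero_smul, add_zero] at hs
  refine ⟨s, Prod.ext hs (Prod.ext ?_ ?_)⟩
  · simp [h6]
  · simp [h3, h5]

omit [FiniteDimensional F K] in
theorem finrank_cross {t t' : Option F} (h : t ≠ t') {σ τ : K ≃ₐ[F] K} {c d u : K} (hu : u ≠ 0)
    (h1 : c * σ u = d * τ u) (h2 : ∀ v, c * σ v = d * τ v → ∃ s : F, s • u = v)
    (φ ψ : Module.Dual F K) : finrank F (mem t σ c φ ⊓ mem t' τ d ψ : Submodule F _) = 1 := by
  obtain ⟨l, hl, hl'⟩ := lam_surj h (φ u) (ψ u)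
  refine finrank_one (w := (l, u, c * σ u)) (fun e => hu (congrArg (fun y => y.2.1) e))
    ⟨mem_iff.2 ⟨hl, rfl⟩, mem_iff.2 ⟨hl', h1⟩⟩ ?_
  rintro x ⟨h3, h4⟩
  obtain ⟨h3, h5⟩ := mem_iff.1 h3
  obtain ⟨h4, h6⟩ := mem_iff.1 h4
  obtain ⟨s, hs⟩ := h2 x.2.1 (h5.symm.trans h6)
  refine ⟨s, Prod.ext (lam_inj h ?_ ?_) (Prod.ext hs ?_)⟩
  · rw [h3, ← hs, map_smul, ← hl]
    exact lam_smul t s l
  · rw [h4, ← hs, map_smul, ← hl']
    exact lam_smul t' s l
  · rw [h5, ← hs, map_smul, mul_smul_comm]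
    rfl

/-- two graphs belonging to different automorphisms meet in a point (Hilbert 90) -/
theorem graphs_meet [IsGalois F K] {k : ℕ} (hk : k.Prime) (hK : finrank F K = k)
    {σ τ : K ≃ₐ[F] K} (h : σ ≠ τ) {c d : K} (hc : Algebra.norm F c = 1)
    (hd : Algebra.norm F d = 1) :
    ∃ u : K, u ≠ 0 ∧ c * σ u = d * τ u ∧ ∀ v, c * σ v = d * τ v → ∃ s : F, s • u = v := by
  have := Fact.mk hk
  have hG : Nat.card (K ≃ₐ[F] K) = k := (IsGalois.card_aut_eq_finrank F K).trans hK
  have : IsCyclic (K ≃ₐ[F] K) := isCyclic_of_prime_card hG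
  have hρ : τ⁻¹ * σ ≠ 1 := fun e => h (inv_mul_eq_one.1 e).symm
  have hgen : ∀ g, g ∈ Subgroup.zpowers (τ⁻¹ * σ) := fun g => mem_zpowers_of_prime_card hG hρ
  have hd0 : d ≠ 0 := fun e => by simp [e] at hd
  have hc0 : c ≠ 0 := fun e => by simp [e] at hc
  have hτ : ∀ v, τ ((τ⁻¹ * σ) v) = σ v := fun v => by
    rw [← AlgEquiv.mul_apply, mul_inv_cancel_left]
  obtain ⟨y, hy⟩ := groupCohomology.exists_div_of_norm_eq_one hgen (x := τ.symm (c / d)) (by
    rw [Algebra.norm_eq_of_algEquiv, div_eq_mul_inv, map_mul, Algebra.norm_inv, hc, hd]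
    simp)
  have hy0 : (y : K) ≠ 0 := y.ne_zero
  have hσ0 : σ y ≠ 0 := (map_ne_zero_iff σ σ.injective).2 hy0
  have hτ0 : τ y ≠ 0 := (map_ne_zero_iff τ τ.injective).2 hy0
  have h1 : c * σ y = d * τ y := by
    have := congrArg τ hy
    rw [map_div₀, hτ, AlgEquiv.apply_symm_apply, div_eq_div_iff hσ0 hd0] at this
    linear_combination -this
  refine ⟨y, hy0, h1, fun v hv => ?_⟩
  have h2 : (τ⁻¹ * σ) (v / y) = v / y := by
    apply τ.injective
    rw [hτ, map_div₀, map_div₀, div_eq_div_iff hσ0 hτ0]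
    apply mul_left_cancel₀ hc0
    linear_combination τ y * hv - τ v * h1
  have h3 : ∀ g : K ≃ₐ[F] K, g (v / y) = v / y := fun g =>
    (Subgroup.zpowers_le_of_mem (H := MulAction.stabilizer (K ≃ₐ[F] K) (v / y)) h2) (hgen g)
  obtain ⟨s, hs⟩ := (IsGalois.mem_range_algebraMap_iff_fixed (v / y)).2 h3
  exact ⟨s, by rw [Algebra.smul_def, hs, div_mul_cancel₀ _ hy0]⟩

end Member

/-- the number of elements of norm one -/
theorem card_norm_one (F K : Type) [Field F] [Field K] [Algebra F K] [Finite F] [Finite K] :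
    Nat.card (Units.map (Algebra.norm F (S := K))).ker =
      ∑ i ∈ Finset.range (finrank F K), Nat.card F ^ i := by
  have h1 := (Units.map (Algebra.norm F (S := K))).ker.card_mul_index
  rw [Subgroup.index_ker, MonoidHom.range_eq_top.2 (FiniteField.unitsMap_norm_surjective F K),
    Subgroup.card_top, Nat.card_units, Nat.card_units,
    Module.natCard_eq_pow_finrank (K := F) (V := K)] at h1
  have h2 : 1 < Nat.card F := Finite.one_lt_card
  rw [Nat.geomSum_eq h2, ← h1, Nat.mul_div_cancel _ (Nat.sub_pos_of_lt h2)]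

theorem count_lt {q k : ℕ} (hq : 2 ≤ q) (hk : 2 ≤ k) :
    ∑ i ∈ Finset.range (2 * k + 1), q ^ i < (q + 1) * q ^ k * ∑ i ∈ Finset.range k, q ^ i := by
  obtain ⟨j, rfl⟩ : ∃ j, k = j + 1 := ⟨k - 1, by omega⟩
  have h1 : ∑ i ∈ Finset.range (j + 1), q ^ i < q ^ (j + 1) :=
    Nat.geomSum_lt hq fun i hi => Finset.mem_range.1 hi
  have h2 : ∑ i ∈ Finset.range (j + 1 + 1), q ^ i =
      q * ∑ i ∈ Finset.range (j + 1), q ^ i + 1 := geom_sum_succ
  have h3 : 2 ≤ ∑ i ∈ Finset.range (j + 1), q ^ i := by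
    obtain ⟨m, rfl⟩ : ∃ m, j = m + 1 := ⟨j - 1, by omega⟩
    rw [geom_sum_succ, geom_sum_succ]
    nlinarith [Nat.zero_le (q * (q * ∑ i ∈ Finset.range m, q ^ i))]
  rw [show 2 * (j + 1) + 1 = (j + 1) + (j + 1 + 1) by ring, Finset.sum_range_add]
  simp only [pow_add q (j + 1)]
  rw [← Finset.mul_sum, h2]
  nlinarith [Nat.mul_le_mul_left (q ^ (j + 1)) h3]

/-- the family in `(F × F) × K × K` -/
theorem exists_family (F K : Type) [Field F] [Field K] [Algebra F K] [Finite F] [Finite K]
    {k : ℕ} (hk : k.Prime) (hK : finrank F K = k) (hq : Nat.card F < k) :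
    ∃ (ι : Type) (_ : Finite ι) (A : ι → Submodule F ((F × F) × K × K)),
      Nat.card ι = (Nat.card F + 1) * Nat.card F ^ k * ∑ i ∈ Finset.range k, Nat.card F ^ i ∧
      (∀ i, Even (finrank F (A i))) ∧
      ∀ i j, i ≠ j → Odd (finrank F (A i ⊓ A j : Submodule F _)) := by
  have h2 : 1 < Nat.card F := Finite.one_lt_card
  have hodd : Odd k := hk.odd_of_ne_two (by omega)
  have hG : Nat.card (K ≃ₐ[F] K) = k := (IsGalois.card_aut_eq_finrank F K).trans hK
  have hT : Nat.card (Option F) = Nat.card F + 1 := Finite.card_option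
  obtain ⟨σ⟩ : Nonempty (Option F ↪ (K ≃ₐ[F] K)) := by
    have := Fintype.ofFinite (Option F)
    have := Fintype.ofFinite (K ≃ₐ[F] K)
    refine Function.Embedding.nonempty_of_card_le ?_
    rw [Fintype.card_eq_nat_card, Fintype.card_eq_nat_card, hG, hT]
    omega
  have : Finite (Module.Dual F K) := Module.finite_of_finite F
  refine ⟨Option F × Module.Dual F K × (Units.map (Algebra.norm F (S := K))).ker, inferInstance,
    fun i => mem i.1 (σ i.1) (i.2.2.1 : K) i.2.1, ?_, fun i => ?_, ?_⟩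
  · rw [Nat.card_prod, Nat.card_prod, hT, card_norm_one,
      Module.natCard_eq_pow_finrank (K := F) (V := Module.Dual F K), Subspace.dual_finrank_eq, hK,
      mul_assoc]
  · rw [finrank_mem, hK]
    exact hodd.add_one
  · rintro ⟨t, φ, c⟩ ⟨t', ψ, d⟩ hne
    have hn : ∀ c : (Units.map (Algebra.norm F (S := K))).ker, Algebra.norm F (c.1 : K) = 1 :=
      fun c => congrArg Units.val (MonoidHom.mem_ker.1 c.2)
    by_cases ht : t = t'
    · subst ht
      by_cases hc : c = d
      · subst hc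
        have hφ : φ ≠ ψ := fun e => hne (by rw [e])
        simp only
        rw [finrank_same t _ _ hφ, hK]
        exact hodd
      · simp only
        rw [finrank_point t _ fun e => hc (Subtype.ext (Units.ext e))]
        exact odd_one
    · obtain ⟨u, hu, h1, h3⟩ := graphs_meet hk hK (σ.injective.ne ht) (hn c) (hn d)
      simp only
      rw [finrank_cross ht hu h1 h3]
      exact odd_one

end Pool.Agent.MP_489091_co
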